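import Pool.Agent.SymExt.FinalPart

/-!
# A model of `ZF` with an infinite set `A` such that `|Part_fin(A)| < |𝓑(A)|`
-/

namespace Pool.Agent.Results.MP_fe2f0d_lc.ZFModel

open Pool.Agent.ZF Pool.Agent.Lib.MP_1929a6_lc Pool.Agent.Lib.MP_fe2f0d_lc

/-- There is a model `(M, E)` of `ZF` with an infinite set `A` such that, in the model, there is an
injection from `S = Part_fin(A)` to `T = 𝓑(A)` but no bijection between them. -/
theorem result : ∃ (M : Type) (E : M → M → Prop), IsZF E ∧ ∃ A S T : M,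
    ¬ IsFinite E A ∧ IsPartFin E A S ∧ IsFinitary E A T ∧
    (∃ f, IsInjection E f S T) ∧ ¬ ∃ f, IsBijection E f S T :=
  Pool.Agent.SymExt.exists_ZF_model

end Pool.Agent.Results.MP_fe2f0d_lc.ZFModel
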